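import Mathlib

/-!
# Finite product measures on the subsets of a finite set

`Ex p F f` is the expectation of `f S`, where `S` is the random subset of `F` that keeps each
element independently with probability `p`.
-/

namespace Pool.Agent.Perc

open Finset

variable {ι : Type*} [DecidableEq ι]

/-- Expectation of `f` over the `p`-random subset of `F`. -/
noncomputable def Ex (p : ℝ) (F : Finset ι) (f : Finset ι → ℝ) : ℝ :=
  ∑ S ∈ F.powerset, p ^ S.card * (1 - p) ^ (F \ S).card * f S

/-- Discrete derivative in the direction `e`. -/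
def DD (e : ι) (f : Finset ι → ℝ) (S : Finset ι) : ℝ := f (insert e S) - f (S.erase e)

/-- Indicator of an event. -/
noncomputable def ind {α : Type*} (A : α → Prop) (a : α) : ℝ := by
  classical exact if A a then 1 else 0

/-- Probability of an event under the `p`-random subset of `F`. -/
noncomputable def Pr (p : ℝ) (F : Finset ι) (A : Finset ι → Prop) : ℝ := Ex p F (ind A)

section ind

variable {α : Type*} {A B : α → Prop} {a : α}

theorem ind_of (h : A a) : ind A a = 1 := by unfold ind; simp [h]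

theorem ind_of_not (h : ¬ A a) : ind A a = 0 := by unfold ind; simp [h]

theorem ind_nonneg (A : α → Prop) (a : α) : 0 ≤ ind A a := by
  by_cases h : A a
  · rw [ind_of h]; norm_num
  · rw [ind_of_not h]

theorem ind_le_one (A : α → Prop) (a : α) : ind A a ≤ 1 := by
  by_cases h : A a
  · rw [ind_of h]
  · rw [ind_of_not h]; norm_num

theorem ind_mul (A B : α → Prop) (a : α) : ind A a * ind B a = ind (fun a => A a ∧ B a) a := by
  by_cases h : A a <;> by_cases h' : B a
  · rw [ind_of h, ind_of h', ind_of (A := fun a => A a ∧ B a) ⟨h, h'⟩, one_mul]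
  · rw [ind_of_not h', ind_of_not (A := fun a => A a ∧ B a) (fun x => h' x.2), mul_zero]
  · rw [ind_of_not h, ind_of_not (A := fun a => A a ∧ B a) (fun x => h x.1), zero_mul]
  · rw [ind_of_not h, ind_of_not (A := fun a => A a ∧ B a) (fun x => h x.1), zero_mul]

theorem ind_sq (A : α → Prop) (a : α) : ind A a ^ 2 = ind A a := by
  by_cases h : A a
  · rw [ind_of h, one_pow]
  · rw [ind_of_not h]; norm_num

theorem ind_le_ind {β : Type*} {A : α → Prop} {B : β → Prop} {a : α} {b : β} (h : A a → B b) :
    ind A a ≤ ind B b := by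
  by_cases h' : A a
  · rw [ind_of h', ind_of (h h')]
  · rw [ind_of_not h']; exact ind_nonneg _ _

theorem ind_congr {β : Type*} {A : α → Prop} {B : β → Prop} {a : α} {b : β} (h : A a ↔ B b) :
    ind A a = ind B b := by
  by_cases h' : A a
  · rw [ind_of h', ind_of (h.1 h')]
  · rw [ind_of_not h', ind_of_not (fun x => h' (h.2 x))]

end ind

variable {p : ℝ} {F G : Finset ι} {f g : Finset ι → ℝ} {e : ι}

@[simp] theorem Ex_empty (p : ℝ) (f : Finset ι → ℝ) : Ex p ∅ f = f ∅ := by
  simp [Ex]

theorem Ex_congr (h : ∀ S, S ⊆ F → f S = g S) : Ex p F f = Ex p F g := by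
  unfold Ex
  refine Finset.sum_congr rfl fun S hS => ?_
  rw [h S (Finset.mem_powerset.1 hS)]

/-- Conditioning on one bit. -/
theorem Ex_insert (he : e ∉ F) (p : ℝ) (f : Finset ι → ℝ) :
    Ex p (insert e F) f = p * Ex p F (fun S => f (insert e S)) + (1 - p) * Ex p F f := by
  unfold Ex
  rw [Finset.sum_powerset_insert he, Finset.mul_sum, Finset.mul_sum, add_comm]
  congr 1
  · refine Finset.sum_congr rfl fun S hS => ?_
    have hS' := Finset.mem_powerset.1 hS
    have heS : e ∉ S := fun h => he (hS' h)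
    have h1 : (insert e F) \ (insert e S) = F \ S := by
      ext x
      simp only [Finset.mem_sdiff, Finset.mem_insert, not_or]
      constructor
      · rintro ⟨h | h, h2, h3⟩
        · exact absurd h h2
        · exact ⟨h, h3⟩
      · rintro ⟨h, h2⟩
        exact ⟨Or.inr h, fun hx => he (hx ▸ h), h2⟩
    rw [h1, Finset.card_insert_of_notMem heS, pow_succ]
    ring
  · refine Finset.sum_congr rfl fun S hS => ?_
    have hS' := Finset.mem_powerset.1 hS
    have heS : e ∉ S := fun h => he (hS' h)
    have h1 : (insert e F) \ S = insert e (F \ S) := by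
      rw [Finset.insert_sdiff_of_notMem _ heS]
    rw [h1, Finset.card_insert_of_notMem (by simp [he]), pow_succ]
    ring

theorem Ex_mono (h0 : 0 ≤ p) (h1 : p ≤ 1) (h : ∀ S, S ⊆ F → f S ≤ g S) : Ex p F f ≤ Ex p F g := by
  unfold Ex
  refine Finset.sum_le_sum fun S hS => ?_
  refine mul_le_mul_of_nonneg_left (h S (Finset.mem_powerset.1 hS)) ?_
  have : 0 ≤ 1 - p := by linarith
  positivity

theorem Ex_add (p : ℝ) (F : Finset ι) (f g : Finset ι → ℝ) :
    Ex p F (fun S => f S + g S) = Ex p F f + Ex p F g := by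
  unfold Ex
  rw [← Finset.sum_add_distrib]
  refine Finset.sum_congr rfl fun S _ => ?_
  ring

theorem Ex_const_mul (p : ℝ) (F : Finset ι) (c : ℝ) (f : Finset ι → ℝ) :
    Ex p F (fun S => c * f S) = c * Ex p F f := by
  unfold Ex
  rw [Finset.mul_sum]
  refine Finset.sum_congr rfl fun S _ => ?_
  ring

theorem Ex_mul_const (p : ℝ) (F : Finset ι) (c : ℝ) (f : Finset ι → ℝ) :
    Ex p F (fun S => f S * c) = Ex p F f * c := by
  unfold Ex
  rw [Finset.sum_mul]
  refine Finset.sum_congr rfl fun S _ => ?_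
  ring

theorem Ex_neg (p : ℝ) (F : Finset ι) (f : Finset ι → ℝ) :
    Ex p F (fun S => - f S) = - Ex p F f := by
  have := Ex_const_mul p F (-1) f
  simpa using this

theorem Ex_sub (p : ℝ) (F : Finset ι) (f g : Finset ι → ℝ) :
    Ex p F (fun S => f S - g S) = Ex p F f - Ex p F g := by
  have h := Ex_add p F f (fun S => - g S)
  rw [Ex_neg] at h
  simpa [sub_eq_add_neg] using h

theorem Ex_sum {κ : Type*} (p : ℝ) (F : Finset ι) (I : Finset κ) (f : κ → Finset ι → ℝ) :
    Ex p F (fun S => ∑ i ∈ I, f i S) = ∑ i ∈ I, Ex p F (f i) := by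
  unfold Ex
  rw [Finset.sum_comm]
  refine Finset.sum_congr rfl fun S _ => ?_
  rw [Finset.mul_sum]

@[simp] theorem Ex_const (p : ℝ) (F : Finset ι) (c : ℝ) : Ex p F (fun _ => c) = c := by
  induction F using Finset.induction_on with
  | empty => simp
  | insert e F he ih => rw [Ex_insert he, ih]; ring

theorem Ex_nonneg (h0 : 0 ≤ p) (h1 : p ≤ 1) (h : ∀ S, S ⊆ F → 0 ≤ f S) : 0 ≤ Ex p F f := by
  have := Ex_mono (F := F) (f := fun _ => (0 : ℝ)) (g := f) h0 h1 h
  simpa using this

theorem abs_Ex_le (h0 : 0 ≤ p) (h1 : p ≤ 1) (f : Finset ι → ℝ) :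
    |Ex p F f| ≤ Ex p F (fun S => |f S|) := by
  rw [abs_le]
  constructor
  · rw [← Ex_neg]
    exact Ex_mono h0 h1 fun S _ => neg_abs_le (f S)
  · exact Ex_mono h0 h1 fun S _ => le_abs_self (f S)

/-- Fubini: conditioning on a subset of the bits. -/
theorem Ex_union (hFG : Disjoint F G) (p : ℝ) (f : Finset ι → ℝ) :
    Ex p (F ∪ G) f = Ex p F (fun S => Ex p G (fun T => f (S ∪ T))) := by
  induction F using Finset.induction_on generalizing f with
  | empty => simp
  | insert e F he ih =>
    rw [Finset.disjoint_insert_left] at hFG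
    rw [Finset.insert_union, Ex_insert (by simp [he, hFG.1]), Ex_insert he, ih hFG.2, ih hFG.2]
    simp only [Finset.insert_union]

theorem Ex_comm (p : ℝ) (F G : Finset ι) (f : Finset ι → Finset ι → ℝ) :
    Ex p F (fun S => Ex p G (fun T => f S T)) = Ex p G (fun T => Ex p F (fun S => f S T)) := by
  unfold Ex
  simp only [Finset.mul_sum]
  rw [Finset.sum_comm]
  refine Finset.sum_congr rfl fun S _ => Finset.sum_congr rfl fun T _ => ?_
  ring

/-- A function that depends only on the bits in `G ⊆ F`. -/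
theorem Ex_restrict (hGF : G ⊆ F) (hf : ∀ S, S ⊆ F → f S = f (S ∩ G)) (p : ℝ) :
    Ex p F f = Ex p G f := by
  have hd : Disjoint G (F \ G) := Finset.disjoint_sdiff
  have hu : G ∪ (F \ G) = F := Finset.union_sdiff_of_subset hGF
  rw [← hu, Ex_union hd]
  refine Ex_congr fun S hS => ?_
  have : ∀ T, T ⊆ F \ G → f (S ∪ T) = f S := by
    intro T hT
    have hTF : T ⊆ F := hT.trans Finset.sdiff_subset
    rw [hf (S ∪ T) (Finset.union_subset (hS.trans hGF) hTF), Finset.union_inter_distrib_right]
    have h1 : S ∩ G = S := Finset.inter_eq_left.2 hS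
    have h2 : T ∩ G = ∅ := by
      rw [← Finset.disjoint_iff_inter_eq_empty]
      exact (Finset.disjoint_sdiff.mono_right hT).symm
    rw [h1, h2, Finset.union_empty]
  rw [Ex_congr (g := fun _ => f S) this, Ex_const]

/-- Independence of functions that depend on disjoint sets of bits. -/
theorem Ex_mul_of_disjoint {H : Finset ι} (hGF : G ⊆ F) (hHF : H ⊆ F) (hGH : Disjoint G H)
    (hf : ∀ S, S ⊆ F → f S = f (S ∩ G)) (hg : ∀ S, S ⊆ F → g S = g (S ∩ H)) (p : ℝ) :
    Ex p F (fun S => f S * g S) = Ex p F f * Ex p F g := by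
  have hH' : Disjoint G (F \ G) := Finset.disjoint_sdiff
  have hu : G ∪ (F \ G) = F := Finset.union_sdiff_of_subset hGF
  have hHF' : H ⊆ F \ G := by
    intro x hx
    rw [Finset.mem_sdiff]
    exact ⟨hHF hx, fun h => (Finset.disjoint_left.1 hGH) h hx⟩
  have h3 : Ex p F (fun S => f S * g S)
      = Ex p G (fun S => Ex p (F \ G) (fun T => f S * g T)) := by
    conv_lhs => rw [← hu]
    rw [Ex_union hH']
    refine Ex_congr fun S hS => Ex_congr fun T hT => ?_
    have hTF : T ⊆ F := hT.trans Finset.sdiff_subset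
    have hST : S ∪ T ⊆ F := Finset.union_subset (hS.trans hGF) hTF
    have h1 : (S ∪ T) ∩ G = S := by
      rw [Finset.union_inter_distrib_right, Finset.inter_eq_left.2 hS]
      have h2 : T ∩ G = ∅ := by
        rw [← Finset.disjoint_iff_inter_eq_empty]
        exact (Finset.disjoint_sdiff.mono_right hT).symm
      rw [h2, Finset.union_empty]
    have h2 : (S ∪ T) ∩ H = T ∩ H := by
      rw [Finset.union_inter_distrib_right]
      have h2 : S ∩ H = ∅ := by
        rw [← Finset.disjoint_iff_inter_eq_empty]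
        exact hGH.mono_left hS
      rw [h2, Finset.empty_union]
    rw [hf _ hST, hg _ hST, h1, h2, ← hg T hTF]
  rw [h3]
  simp only [Ex_const_mul, Ex_mul_const]
  rw [← Ex_restrict hGF hf]
  congr 1
  rw [Ex_restrict (F := F) hHF hg, Ex_restrict (F := F \ G) hHF' (fun S hS => hg S (hS.trans Finset.sdiff_subset))]

/-- Reindexing. -/
theorem Ex_image {κ : Type*} [DecidableEq κ] (σ : ι → κ) (hσ : Set.InjOn σ (F : Set ι)) (p : ℝ)
    (f : Finset κ → ℝ) :
    Ex p (F.image σ) f = Ex p F (fun S => f (S.image σ)) := by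
  induction F using Finset.induction_on generalizing f with
  | empty => simp
  | insert e F he ih =>
    have hinj : Set.InjOn σ (F : Set ι) := hσ.mono (by simp)
    have hnot : σ e ∉ F.image σ := by
      intro h
      obtain ⟨x, hx, hxe⟩ := Finset.mem_image.1 h
      have := hσ (by simp [hx]) (by simp) hxe
      exact he (this ▸ hx)
    rw [Finset.image_insert, Ex_insert hnot, Ex_insert he, ih hinj, ih hinj]
    simp only [Finset.image_insert]

/-- Complementation: `p ↔ 1 - p`. -/
theorem Ex_compl (p : ℝ) (F : Finset ι) (f : Finset ι → ℝ) :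
    Ex p F f = Ex (1 - p) F (fun S => f (F \ S)) := by
  unfold Ex
  refine Finset.sum_nbij' (fun S => F \ S) (fun S => F \ S) ?_ ?_ ?_ ?_ ?_
  · intro S _; simp
  · intro S _; simp
  · intro S hS; simp only [Finset.mem_powerset] at hS; simp [Finset.sdiff_sdiff_eq_self hS]
  · intro S hS; simp only [Finset.mem_powerset] at hS; simp [Finset.sdiff_sdiff_eq_self hS]
  · intro S hS
    simp only [Finset.mem_powerset] at hS
    simp only [Finset.sdiff_sdiff_eq_self hS, sub_sub_cancel]
    ring

/-! ### Harris (FKG) -/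

/-- `f` is nondecreasing on the subsets of `F`. -/
def MonoOnF (F : Finset ι) (f : Finset ι → ℝ) : Prop :=
  ∀ S T, S ⊆ T → T ⊆ F → f S ≤ f T

/-- `f` is nonincreasing on the subsets of `F`. -/
def AntiOnF (F : Finset ι) (f : Finset ι → ℝ) : Prop :=
  ∀ S T, S ⊆ T → T ⊆ F → f T ≤ f S

omit [DecidableEq ι] in
theorem AntiOnF.neg (h : AntiOnF F f) : MonoOnF F (fun S => - f S) :=
  fun S T h1 h2 => neg_le_neg (h S T h1 h2)

theorem MonoOnF.insert_sub {e : ι} (h : MonoOnF (insert e F) f) : MonoOnF F (fun S => f (insert e S)) :=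
  fun _ _ h1 h2 => h _ _ (Finset.insert_subset_insert e h1) (Finset.insert_subset_insert e h2)

theorem MonoOnF.sub {e : ι} (h : MonoOnF (insert e F) f) : MonoOnF F f :=
  fun _ _ h1 h2 => h _ _ h1 (h2.trans (Finset.subset_insert e F))

theorem harris (h0 : 0 ≤ p) (h1 : p ≤ 1) (hf : MonoOnF F f) (hg : MonoOnF F g) :
    Ex p F f * Ex p F g ≤ Ex p F (fun S => f S * g S) := by
  induction F using Finset.induction_on generalizing f g with
  | empty => simp
  | insert e F he ih =>
    rw [Ex_insert he, Ex_insert he, Ex_insert he]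
    have i1 := ih hf.insert_sub hg.insert_sub
    have i0 := ih hf.sub hg.sub
    have mf : Ex p F f ≤ Ex p F (fun S => f (insert e S)) := Ex_mono h0 h1 fun S hS =>
      hf _ _ (Finset.subset_insert e S) (Finset.insert_subset_insert e hS)
    have mg : Ex p F g ≤ Ex p F (fun S => g (insert e S)) := Ex_mono h0 h1 fun S hS =>
      hg _ _ (Finset.subset_insert e S) (Finset.insert_subset_insert e hS)
    have hq : 0 ≤ 1 - p := by linarith
    have k1 := mul_le_mul_of_nonneg_left i1 h0
    have k0 := mul_le_mul_of_nonneg_left i0 hq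
    have k2 : 0 ≤ p * (1 - p) * ((Ex p F (fun S => f (insert e S)) - Ex p F f)
        * (Ex p F (fun S => g (insert e S)) - Ex p F g)) :=
      mul_nonneg (mul_nonneg h0 hq) (mul_nonneg (by linarith) (by linarith))
    nlinarith [k1, k0, k2]

theorem harris_anti (h0 : 0 ≤ p) (h1 : p ≤ 1) (hf : AntiOnF F f) (hg : AntiOnF F g) :
    Ex p F f * Ex p F g ≤ Ex p F (fun S => f S * g S) := by
  have := harris h0 h1 hf.neg hg.neg
  simpa [Ex_neg] using this

theorem harris_mono_anti (h0 : 0 ≤ p) (h1 : p ≤ 1) (hf : MonoOnF F f) (hg : AntiOnF F g) :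
    Ex p F (fun S => f S * g S) ≤ Ex p F f * Ex p F g := by
  have := harris h0 h1 hf hg.neg
  simp only [Ex_neg, mul_neg] at this
  linarith

/-! ### Cauchy–Schwarz -/

theorem Ex_mul_sq_le (h0 : 0 ≤ p) (h1 : p ≤ 1) (F : Finset ι) (f g : Finset ι → ℝ) :
    Ex p F (fun S => f S * g S) ^ 2 ≤ Ex p F (fun S => f S ^ 2) * Ex p F (fun S => g S ^ 2) := by
  have hq : 0 ≤ 1 - p := by linarith
  unfold Ex
  have key := Finset.sum_mul_sq_le_sq_mul_sq F.powerset
    (fun S => Real.sqrt (p ^ S.card * (1 - p) ^ (F \ S).card) * f S)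
    (fun S => Real.sqrt (p ^ S.card * (1 - p) ^ (F \ S).card) * g S)
  have e1 : ∀ S : Finset ι, Real.sqrt (p ^ S.card * (1 - p) ^ (F \ S).card) *
      Real.sqrt (p ^ S.card * (1 - p) ^ (F \ S).card)
      = p ^ S.card * (1 - p) ^ (F \ S).card := fun S => Real.mul_self_sqrt (by positivity)
  have e2 : ∀ (S : Finset ι) (x y : ℝ), (Real.sqrt (p ^ S.card * (1 - p) ^ (F \ S).card) * x)
      * (Real.sqrt (p ^ S.card * (1 - p) ^ (F \ S).card) * y)
      = p ^ S.card * (1 - p) ^ (F \ S).card * (x * y) := by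
    intro S x y
    rw [mul_mul_mul_comm, e1]
  simp only [e2, pow_two (_ * f _), pow_two (_ * g _), ← pow_two (f _), ← pow_two (g _)] at key
  exact key

/-! ### Russo's formula -/

theorem Ex_erase (he : e ∈ F) (p : ℝ) (f : Finset ι → ℝ) :
    Ex p F f = p * Ex p (F.erase e) (fun S => f (insert e S)) + (1 - p) * Ex p (F.erase e) f := by
  conv_lhs => rw [← Finset.insert_erase he]
  rw [Ex_insert (Finset.notMem_erase e F)]

theorem DD_insert_self (e : ι) (f : Finset ι → ℝ) (S : Finset ι) : DD e f (insert e S) = DD e f S := by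
  unfold DD
  rw [Finset.insert_idem, Finset.erase_insert_eq_erase]

theorem DD_of_notMem {S : Finset ι} (h : e ∉ S) (f : Finset ι → ℝ) :
    DD e f S = f (insert e S) - f S := by
  unfold DD
  rw [Finset.erase_eq_of_notMem h]

theorem Ex_DD (he : e ∈ F) (p : ℝ) (f : Finset ι → ℝ) :
    Ex p F (DD e f) = Ex p (F.erase e) (fun S => f (insert e S)) - Ex p (F.erase e) f := by
  rw [Ex_erase he]
  simp only [DD_insert_self]
  rw [← add_mul, add_sub_cancel, one_mul, ← Ex_sub]
  refine Ex_congr fun S hS => ?_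
  exact DD_of_notMem (fun h => Finset.notMem_erase e F (hS h)) f

theorem hasDerivAt_Ex (F : Finset ι) (f : Finset ι → ℝ) (p : ℝ) :
    HasDerivAt (fun q => Ex q F f) (∑ e ∈ F, Ex p F (DD e f)) p := by
  induction F using Finset.induction_on generalizing f with
  | empty => simpa using hasDerivAt_const p (f ∅)
  | insert a F ha ih =>
    have hfun : (fun q => Ex q (insert a F) f)
        = fun q => q * Ex q F (fun S => f (insert a S)) + (1 - q) * Ex q F f := by
      funext q; exact Ex_insert ha q f
    rw [hfun]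
    have d1 := (hasDerivAt_id p).mul (ih (fun S => f (insert a S)))
    have d2 := ((hasDerivAt_const p (1 : ℝ)).sub (hasDerivAt_id p)).mul (ih f)
    have d3 := d1.add d2
    refine d3.congr_deriv ?_
    rw [Finset.sum_insert ha]
    have h1 : Ex p (insert a F) (DD a f) = Ex p F (fun S => f (insert a S)) - Ex p F f := by
      have := Ex_DD (F := insert a F) (e := a) (by simp) p f
      rwa [Finset.erase_insert ha] at this
    have h2 : ∀ e ∈ F, Ex p (insert a F) (DD e f)
        = p * Ex p F (DD e (fun S => f (insert a S))) + (1 - p) * Ex p F (DD e f) := by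
      intro e he
      rw [Ex_insert ha]
      congr 2
      refine Ex_congr fun S hS => ?_
      have hea : e ≠ a := fun h => ha (h ▸ he)
      unfold DD
      rw [Finset.insert_comm, Finset.erase_insert_of_ne (fun h => hea h.symm)]
    rw [h1, Finset.sum_congr rfl h2, Finset.sum_add_distrib, ← Finset.mul_sum, ← Finset.mul_sum]
    simp only [id, Pi.sub_apply]
    ring

theorem continuous_Ex (F : Finset ι) (f : Finset ι → ℝ) : Continuous (fun q => Ex q F f) :=
  continuous_iff_continuousAt.2 fun p => (hasDerivAt_Ex F f p).continuousAt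

/-- Monotonicity in `p`. -/
theorem Ex_mono_p {q : ℝ} (h0 : 0 ≤ p) (hpq : p ≤ q) (h1 : q ≤ 1) (hf : MonoOnF F f) :
    Ex p F f ≤ Ex q F f := by
  have hm : MonotoneOn (fun q => Ex q F f) (Set.Icc 0 1) := by
    refine monotoneOn_of_deriv_nonneg (convex_Icc 0 1) (continuous_Ex F f).continuousOn ?_ ?_
    · intro x _
      exact (hasDerivAt_Ex F f x).differentiableAt.differentiableWithinAt
    · intro x hx
      rw [interior_Icc] at hx
      rw [(hasDerivAt_Ex F f x).deriv]
      refine Finset.sum_nonneg fun e he => Ex_nonneg hx.1.le hx.2.le fun S hS => ?_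
      unfold DD
      rw [sub_nonneg]
      exact hf _ _ ((Finset.erase_subset e S).trans (Finset.subset_insert e S))
        (Finset.insert_subset he hS)
  exact hm ⟨h0, hpq.trans h1⟩ ⟨h0.trans hpq, h1⟩ hpq

end Pool.Agent.Perc
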